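import Pool.Agent.Helper96.Ab.Goals

/-! Packet F of the normal version of MP_5ff3c6_ag: masses. -/

open scoped Manifold ContDiff ENNReal Topology
open MeasureTheory Filter
open Pool.Agent.Helper16.Abund

namespace Pool.Agent.Helper96.Ab

universe u

theorem lintegral_cover_le {α ι : Type*} [MeasurableSpace α] (μ : Measure α) (f : α → ℝ≥0∞)
    (t : Finset ι) (A : ι → Set α) (V : Set α) (h : V ⊆ ⋃ a ∈ t, A a) :
    ∫⁻ z in V, f z ∂μ ≤ ∑ a ∈ t, ∫⁻ z in A a, f z ∂μ := by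
  classical
  have key : ∀ t : Finset ι, ∫⁻ z in (⋃ a ∈ t, A a), f z ∂μ ≤ ∑ a ∈ t, ∫⁻ z in A a, f z ∂μ := by
    intro t
    induction t using Finset.induction_on with
    | empty => simp
    | insert a t ha ih =>
      rw [Finset.sum_insert ha, Finset.set_biUnion_insert]
      refine (lintegral_union_le _ _ _).trans ?_
      gcongr
  exact (lintegral_mono_set h).trans (key t)

theorem stmtF_part1 (n : ℕ) (M : Type u) [TopologicalSpace M] [ChartedSpace (Fin n → ℂ) M]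
    (m : ℕ) (η : M → ℂ) (ι : Type u) (t : Finset ι)
    (Ω : ι → Set M) (hΩ : ∀ a ∈ t, IsOpen (Ω a)) (hcov : (⋃ a ∈ t, Ω a) = Set.univ)
    (hfin : ∀ a ∈ t, FiniteMassOn n m (Ω a) η) : FiniteMass n m η := by
  unfold FiniteMassOn at hfin
  choose! C hC using hfin
  refine ⟨∑ a ∈ t, max (C a) 0, ?_⟩
  intro N V ψ hV hψ hinj hdisj
  set f : Fin N → (Fin n → ℂ) → ℝ≥0∞ := fun i z =>
    ENNReal.ofReal (‖η (ψ i z) * jac n (ψ i) z ^ m‖ ^ (2 / (m : ℝ))) with hf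
  have h1 : ∀ i, ∫⁻ z in V i, f i z ≤ ∑ a ∈ t, ∫⁻ z in V i ∩ ψ i ⁻¹' Ω a, f i z := by
    intro i
    apply lintegral_cover_le
    intro z hz
    have : ψ i z ∈ ⋃ a ∈ t, Ω a := by rw [hcov]; trivial
    simp only [Set.mem_iUnion, exists_prop] at this ⊢
    obtain ⟨a, ha, hza⟩ := this
    exact ⟨a, ha, hz, hza⟩
  have h2 : ∀ a ∈ t, ∑ i, ∫⁻ z in V i ∩ ψ i ⁻¹' Ω a, f i z ≤ ENNReal.ofReal (max (C a) 0) := by
    intro a ha
    refine (hC a ha N (fun i => V i ∩ ψ i ⁻¹' Ω a) ψ ?_ ?_ ?_ ?_ ?_).trans ?_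
    · intro i
      exact (hψ i).continuousOn.isOpen_inter_preimage (hV i) (hΩ a ha)
    · intro i
      exact (hψ i).mono Set.inter_subset_left
    · intro i z hz
      exact hz.2
    · intro i
      exact (hinj i).mono Set.inter_subset_left
    · intro i j hij
      exact (hdisj hij).mono (Set.image_mono Set.inter_subset_left)
        (Set.image_mono Set.inter_subset_left)
    · exact ENNReal.ofReal_le_ofReal (le_max_left _ _)
  calc ∑ i, ∫⁻ z in V i, f i z ≤ ∑ i, ∑ a ∈ t, ∫⁻ z in V i ∩ ψ i ⁻¹' Ω a, f i z :=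
        Finset.sum_le_sum fun i _ => h1 i
    _ = ∑ a ∈ t, ∑ i, ∫⁻ z in V i ∩ ψ i ⁻¹' Ω a, f i z := Finset.sum_comm
    _ ≤ ∑ a ∈ t, ENNReal.ofReal (max (C a) 0) := Finset.sum_le_sum h2
    _ = ENNReal.ofReal (∑ a ∈ t, max (C a) 0) := by
        rw [ENNReal.ofReal_sum_of_nonneg]
        intro a _
        exact le_max_right _ _

theorem ptwise {m r : ℕ} (hm : 1 ≤ m) (hr : 1 ≤ r) {s w J : ℂ} {C : ℝ}
    (h : ‖s‖ ^ r ≤ C * ‖w‖ ^ m) :
    ‖s * J ^ m‖ ^ (2 / (m : ℝ)) ≤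
      (max C 0) ^ (2 / ((m : ℝ) * r)) * ‖w * J ^ r‖ ^ (2 / (r : ℝ)) := by
  have hm0 : (m : ℝ) ≠ 0 := by positivity
  have hr0 : (r : ℝ) ≠ 0 := by positivity
  set C' := max C 0 with hC'
  have hC'0 : 0 ≤ C' := le_max_right _ _
  have h1 : ‖s * J ^ m‖ ^ r ≤ C' * ‖w * J ^ r‖ ^ m := by
    rw [norm_mul, norm_mul, mul_pow, mul_pow, norm_pow, norm_pow, ← pow_mul, ← pow_mul,
      mul_comm r m]
    calc ‖s‖ ^ r * ‖J‖ ^ (m * r) ≤ (C' * ‖w‖ ^ m) * ‖J‖ ^ (m * r) := by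
          apply mul_le_mul_of_nonneg_right _ (by positivity)
          refine h.trans ?_
          apply mul_le_mul_of_nonneg_right (le_max_left _ _) (by positivity)
      _ = C' * (‖w‖ ^ m * ‖J‖ ^ (m * r)) := by ring
  have h2 : ‖s * J ^ m‖ ^ (2 / (m : ℝ)) = (‖s * J ^ m‖ ^ r) ^ (2 / ((m : ℝ) * r)) := by
    rw [← Real.rpow_natCast, ← Real.rpow_mul (norm_nonneg _)]
    congr 1
    field_simp
  have h3 : (‖w * J ^ r‖ ^ m) ^ (2 / ((m : ℝ) * r)) = ‖w * J ^ r‖ ^ (2 / (r : ℝ)) := by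
    rw [← Real.rpow_natCast, ← Real.rpow_mul (norm_nonneg _)]
    congr 1
    field_simp
  rw [h2, ← h3, ← Real.mul_rpow hC'0 (by positivity)]
  exact Real.rpow_le_rpow (by positivity) h1 (by positivity)

theorem stmtF_part2 (n : ℕ) (M : Type u) [TopologicalSpace M] [ChartedSpace (Fin n → ℂ) M]
    (m r : ℕ) (s w : M → ℂ) (Ω Ω' : Set M) (C : ℝ) (hm : 1 ≤ m) (hr : 1 ≤ r) (hΩ : Ω' ⊆ Ω)
    (hfin : FiniteMassOn n r Ω w) (h : ∀ z ∈ Ω', ‖s z‖ ^ r ≤ C * ‖w z‖ ^ m) :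
    FiniteMassOn n m Ω' s := by
  obtain ⟨Cw, hCw⟩ := hfin
  refine ⟨(max C 0) ^ (2 / ((m : ℝ) * r)) * Cw, ?_⟩
  intro N V ψ hV hψ hmap hinj hdisj
  have h1 := hCw N V ψ hV hψ (fun i => (hmap i).mono_right hΩ) hinj hdisj
  have hC0 : 0 ≤ (max C 0) ^ (2 / ((m : ℝ) * r)) := by
    apply Real.rpow_nonneg
    exact le_max_right _ _
  have h2 : ∀ i, ∫⁻ z in V i, ENNReal.ofReal (‖s (ψ i z) * jac n (ψ i) z ^ m‖ ^ (2 / (m : ℝ))) ≤
      ENNReal.ofReal ((max C 0) ^ (2 / ((m : ℝ) * r))) *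
        ∫⁻ z in V i, ENNReal.ofReal (‖w (ψ i z) * jac n (ψ i) z ^ r‖ ^ (2 / (r : ℝ))) := by
    intro i
    rw [← lintegral_const_mul' _ _ ENNReal.ofReal_ne_top]
    apply setLIntegral_mono' (hV i).measurableSet
    intro z hz
    rw [← ENNReal.ofReal_mul hC0]
    exact ENNReal.ofReal_le_ofReal (ptwise hm hr (h _ (hmap i hz)))
  calc _ ≤ ∑ i, ENNReal.ofReal ((max C 0) ^ (2 / ((m : ℝ) * r))) *
        ∫⁻ z in V i, ENNReal.ofReal (‖w (ψ i z) * jac n (ψ i) z ^ r‖ ^ (2 / (r : ℝ))) :=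
        Finset.sum_le_sum fun i _ => h2 i
    _ = ENNReal.ofReal ((max C 0) ^ (2 / ((m : ℝ) * r))) *
        ∑ i, ∫⁻ z in V i, ENNReal.ofReal (‖w (ψ i z) * jac n (ψ i) z ^ r‖ ^ (2 / (r : ℝ))) := by
        rw [Finset.mul_sum]
    _ ≤ ENNReal.ofReal ((max C 0) ^ (2 / ((m : ℝ) * r))) * ENNReal.ofReal Cw := by gcongr
    _ = ENNReal.ofReal ((max C 0) ^ (2 / ((m : ℝ) * r)) * Cw) := by
        rw [ENNReal.ofReal_mul hC0]

theorem stmtF : StmtF := by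
  refine ⟨?_, ?_⟩
  · intro n M _ _ _ m η ι t Ω h1 h2 h3
    exact stmtF_part1 n M m η ι t Ω h1 h2 h3
  · intro n M _ _ _ m r s w Ω Ω' C h1 h2 h3 h4 h5
    exact stmtF_part2 n M m r s w Ω Ω' C h1 h2 h3 h4 h5

end Pool.Agent.Helper96.Ab
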